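import Mathlib
import Pool.Agent.K4H36.BK.Def

/-!
# The order formula for the twists of a family of representations by Artin representations
-/

set_option autoImplicit false

namespace Pool.Agent.K4H36.TP

open NumberField Polynomial IsDedekindDomain
open Pool.Agent.K4H36.BK (inert IsFrob)
open scoped Pointwise

variable {K : Type} [Field K]

section euler

variable {H : Subgroup Gal(AlgebraicClosure K/K)} {V : Type} [AddCommGroup V] [Module ℂ V]

/-- the vectors fixed by the inertia group of `W` in the group `H` -/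
def fixI (ρ : Representation ℂ H V) (W : Ideal (𝓞 (AlgebraicClosure K))) : Submodule ℂ V where
  carrier := {x | ∀ g : H, (g : Gal(AlgebraicClosure K/K)) ∈ inert H W → ρ g x = x}
  zero_mem' := fun g _ => map_zero _
  add_mem' := fun {a b} ha hb g hg => by rw [map_add, ha g hg, hb g hg]
  smul_mem' := fun c x hx g hg => by rw [map_smul, hx g hg]

lemma stable {W : Ideal (𝓞 (AlgebraicClosure K))} {q : ℕ} {φ : Gal(AlgebraicClosure K/K)}
    (h : IsFrob H W q φ) (ρ : Representation ℂ H V) :
    ∀ x ∈ fixI ρ W, ρ ⟨φ⁻¹, inv_mem h.1⟩ x ∈ fixI ρ W := by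
  rintro x hx ⟨g, hgH⟩ ⟨-, hgW⟩
  have h1 : φ * g * φ⁻¹ ∈ inert H W := by
    refine ⟨mul_mem (mul_mem h.1 hgH) (inv_mem h.1), fun y => ?_⟩
    have h2 := hgW (φ⁻¹ • y)
    have h3 : φ • (g • (φ⁻¹ • y) - φ⁻¹ • y) ∈ φ • W := Ideal.smul_mem_pointwise_smul _ _ _ h2
    rw [h.2.1, smul_sub, smul_inv_smul] at h3
    rw [mul_smul, mul_smul]
    exact h3
  have h4 := hx ⟨φ * g * φ⁻¹, mul_mem (mul_mem h.1 hgH) (inv_mem h.1)⟩ h1
  have h5 : ρ ⟨g, hgH⟩ (ρ ⟨φ⁻¹, inv_mem h.1⟩ x) = ρ ⟨φ⁻¹, inv_mem h.1⟩
      (ρ ⟨φ * g * φ⁻¹, mul_mem (mul_mem h.1 hgH) (inv_mem h.1)⟩ x) := by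
    rw [← Module.End.mul_apply, ← Module.End.mul_apply, ← map_mul, ← map_mul]
    congr 2
    apply Subtype.ext
    simp only [Subgroup.coe_mul]
    group
  rw [h5, h4]

/-- the Euler polynomial `det (1 - φ⁻¹ T)` of a representation of the Galois group `H` of a field on
the invariants of the inertia group of `W` (`φ⁻¹` is the geometric Frobenius) -/
noncomputable def eulerPoly [FiniteDimensional ℂ V] (ρ : Representation ℂ H V)
    {W : Ideal (𝓞 (AlgebraicClosure K))} {q : ℕ} {φ : Gal(AlgebraicClosure K/K)}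
    (h : IsFrob H W q φ) : ℂ[X] :=
  (LinearMap.charpoly ((ρ ⟨φ⁻¹, inv_mem h.1⟩).restrict (stable h ρ))).reverse

/-- a character as a representation -/
def chr {G : Type} [Group G] (ψ : G →* ℂˣ) : Representation ℂ G ℂ where
  toFun g := (ψ g : ℂ) • LinearMap.id
  map_one' := by
    ext
    simp
  map_mul' g h := by
    ext
    simp [mul_comm]

end euler

/-- A family of representations of the absolute Galois group of `K` over `ℂ`, one for every prime
`ℓ`: for example the `ℓ`-adic representations `V_{f,λ}` of a modular form `f` with coefficients in the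
number field `E`, `λ` a place of `E` above `ℓ`, extended to `ℂ` by an embedding of the completion
`E_λ` in `ℂ` which is the given one on `E`. -/
structure Fam (K : Type) [Field K] where
  /-- the spaces -/
  V : ∀ (ℓ : ℕ) [Fact ℓ.Prime], Type
  [grp : ∀ (ℓ : ℕ) [Fact ℓ.Prime], AddCommGroup (V ℓ)]
  [mod : ∀ (ℓ : ℕ) [Fact ℓ.Prime], Module ℂ (V ℓ)]
  [fin : ∀ (ℓ : ℕ) [Fact ℓ.Prime], FiniteDimensional ℂ (V ℓ)]
  /-- the actions -/
  ρ : ∀ (ℓ : ℕ) [Fact ℓ.Prime], Representation ℂ Gal(AlgebraicClosure K/K) (V ℓ)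

attribute [instance] Fam.grp Fam.mod Fam.fin

/-- the Euler factor `P_w(N w ^ (-s))⁻¹` -/
noncomputable def factor {F : Type} [Field F] (P : HeightOneSpectrum (𝓞 F) → ℂ[X]) (s : ℂ)
    (w : HeightOneSpectrum (𝓞 F)) : ℂ :=
  ((P w).eval ((Nat.card (𝓞 F ⧸ w.asIdeal) : ℂ) ^ (-s)))⁻¹

/-- **The order formula** over the field `F` for the family `V` twisted by the representation `ω` of
the Galois group of `F`, and the representation `γ` of the absolute Galois group of `K`:

the Euler polynomials `P w` of `V_ℓ ⊗ ω` do not depend on `ℓ`, the Euler product converges for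
`re s > c` and continues to a meromorphic function `L` on `Ω`, and the order of `L` at `0` is the
dimension of the space `(ω ⊗ γ) ^ (G_F) = Hom_{G_F} (ω^∨, γ)`. -/
def Formula (V : Fam K) {C : Type} [AddCommGroup C] [Module ℂ C]
    (γ : Representation ℂ Gal(AlgebraicClosure K/K) C)
    (F : IntermediateField K (AlgebraicClosure K)) {U : Type} [AddCommGroup U] [Module ℂ U]
    [FiniteDimensional ℂ U] (ω : Representation ℂ F.fixingSubgroup U) (Ω : Set ℂ) : Prop :=
  ∃ P : HeightOneSpectrum (𝓞 F) → ℂ[X],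
    (∀ (w : HeightOneSpectrum (𝓞 F)) (ℓ : ℕ) [Fact ℓ.Prime], (ℓ : 𝓞 F) ∉ w.asIdeal →
      ∀ W : Ideal (𝓞 (AlgebraicClosure K)), W.IsMaximal →
      W.comap (algebraMap (𝓞 F) (𝓞 (AlgebraicClosure K))) = w.asIdeal →
      ∀ (φ : Gal(AlgebraicClosure K/K))
        (h : IsFrob F.fixingSubgroup W (Nat.card (𝓞 F ⧸ w.asIdeal)) φ),
        eulerPoly (Representation.tprod ((V.ρ ℓ).comp F.fixingSubgroup.subtype) ω) h = P w) ∧
    ∃ (c : ℝ) (L : ℂ → ℂ), {s : ℂ | c < s.re} ⊆ Ω ∧ MeromorphicOn L Ω ∧
      (∀ s : ℂ, c < s.re → (∀ w, factor P s w ≠ 0) ∧ HasProd (factor P s) (L s)) ∧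
      ∃ n : ℕ, Module.rank ℂ (Representation.invariants
          (Representation.tprod ω (γ.comp F.fixingSubgroup.subtype))) = n ∧
        meromorphicOrderAt L 0 = ((n : ℤ) : WithTop ℤ)

/-- The character `ψ` of the Galois group of `F` is local at one place: there is a prime `v` of `F`
such that for all primes `W` of the ring of all algebraic integers which are not above `v`, `ψ` is
trivial on the inertia group of `W` (`ψ` is unramified at all finite places different from `v`) and
even on the decomposition group of `W` if `W` divides `m` (`ψ` is locally trivial at the places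
different from `v` which divide `m`), and such that the decomposition group of a prime `W` above `v`
has the same image under `ψ` as the Galois group of `F` (`v` is not decomposed in the extension of
`F` cut out by `ψ`). If `v` is not a prime, this says that `ψ` is unramified at all finite places and
locally trivial at all places above `m`. -/
def OneBad (F : IntermediateField K (AlgebraicClosure K)) (m : ℕ)
    (ψ : F.fixingSubgroup →* ℂˣ) : Prop :=
  ∃ v : Ideal (𝓞 F), ∀ W : Ideal (𝓞 (AlgebraicClosure K)), W.IsMaximal →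
    (W.comap (algebraMap (𝓞 F) (𝓞 (AlgebraicClosure K))) ≠ v →
      (∀ g : F.fixingSubgroup,
        (∀ y : 𝓞 (AlgebraicClosure K), (g : Gal(AlgebraicClosure K/K)) • y - y ∈ W) → ψ g = 1) ∧
      ((m : 𝓞 (AlgebraicClosure K)) ∈ W →
        ∀ g : F.fixingSubgroup, (g : Gal(AlgebraicClosure K/K)) • W = W → ψ g = 1)) ∧
    (W.comap (algebraMap (𝓞 F) (𝓞 (AlgebraicClosure K))) = v →
      ∀ g : F.fixingSubgroup, ∃ h : F.fixingSubgroup,
        (h : Gal(AlgebraicClosure K/K)) • W = W ∧ ψ h = ψ g)

end Pool.Agent.K4H36.TP
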