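import Mathlib
import Pool.Agent.K4H36.TP.Def
import Pool.Agent.K4H36.BK.C

/-!
# Additivity of the order formula in the twist
-/

set_option autoImplicit false
set_option linter.unusedSectionVars false

namespace Pool.Agent.K4H36.TP

open NumberField Polynomial IsDedekindDomain
open Pool.Agent.K4H36.BK (inert IsFrob)
open scoped Pointwise TensorProduct

section euler

variable {K : Type} [Field K] {H : Subgroup Gal(AlgebraicClosure K/K)}
  {U V W : Type} [AddCommGroup U] [Module ℂ U] [AddCommGroup V] [Module ℂ V]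
  [AddCommGroup W] [Module ℂ W]

def fixEquiv {ρ : Representation ℂ H V} {σ : Representation ℂ H W} (e : V ≃ₗ[ℂ] W)
    (he : ∀ g x, e (ρ g x) = σ g (e x)) (P : Ideal (𝓞 (AlgebraicClosure K))) :
    fixI ρ P ≃ₗ[ℂ] fixI σ P where
  toFun x := ⟨e x.1, fun g hg => by rw [← he, x.2 g hg]⟩
  map_add' x y := Subtype.ext (map_add e _ _)
  map_smul' c x := Subtype.ext (map_smul e _ _)
  invFun y := ⟨e.symm y.1, fun g hg => by
    apply e.injective
    rw [he, LinearEquiv.apply_symm_apply, y.2 g hg]⟩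
  left_inv x := Subtype.ext (e.symm_apply_apply _)
  right_inv y := Subtype.ext (e.apply_symm_apply _)

def fixProd {τ : Representation ℂ H U} {ρ : Representation ℂ H V} {σ : Representation ℂ H W}
    (e : U ≃ₗ[ℂ] V × W) (he : ∀ g x, e (τ g x) = (ρ g (e x).1, σ g (e x).2))
    (P : Ideal (𝓞 (AlgebraicClosure K))) : fixI τ P ≃ₗ[ℂ] (fixI ρ P × fixI σ P) where
  toFun x := (⟨(e x.1).1, fun g hg => by
      have h := he g x.1
      rw [x.2 g hg] at h
      exact (congrArg Prod.fst h).symm⟩, ⟨(e x.1).2, fun g hg => by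
      have h := he g x.1
      rw [x.2 g hg] at h
      exact (congrArg Prod.snd h).symm⟩)
  map_add' x y := by
    apply Prod.ext
    · apply Subtype.ext
      simp
    · apply Subtype.ext
      simp
  map_smul' c x := by
    apply Prod.ext
    · apply Subtype.ext
      simp
    · apply Subtype.ext
      simp
  invFun y := ⟨e.symm (y.1.1, y.2.1), fun g hg => by
    apply e.injective
    rw [he, LinearEquiv.apply_symm_apply, y.1.2 g hg, y.2.2 g hg]⟩
  left_inv x := by
    apply Subtype.ext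
    simp
  right_inv y := by
    apply Prod.ext
    · apply Subtype.ext
      simp
    · apply Subtype.ext
      simp

variable [FiniteDimensional ℂ U] [FiniteDimensional ℂ V] [FiniteDimensional ℂ W]
  (τ : Representation ℂ H U) (ρ : Representation ℂ H V) (σ : Representation ℂ H W)
  {P : Ideal (𝓞 (AlgebraicClosure K))} {q : ℕ} {φ : Gal(AlgebraicClosure K/K)}
  (h : IsFrob H P q φ)

theorem euler_congr (e : V ≃ₗ[ℂ] W) (he : ∀ g x, e (ρ g x) = σ g (e x)) :
    eulerPoly ρ h = eulerPoly σ h := by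
  unfold eulerPoly
  congr 1
  have h1 : (fixEquiv e he P).conj ((ρ ⟨φ⁻¹, inv_mem h.1⟩).restrict (stable h ρ)) =
      (σ ⟨φ⁻¹, inv_mem h.1⟩).restrict (stable h σ) := by
    apply LinearMap.ext
    intro y
    apply Subtype.ext
    rw [LinearEquiv.conj_apply_apply]
    show e (ρ _ (e.symm y.1)) = σ _ y.1
    rw [he, LinearEquiv.apply_symm_apply]
  rw [← h1, LinearEquiv.charpoly_conj]

theorem euler_mul (e : U ≃ₗ[ℂ] V × W) (he : ∀ g x, e (τ g x) = (ρ g (e x).1, σ g (e x).2)) :
    eulerPoly τ h = eulerPoly ρ h * eulerPoly σ h := by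
  unfold eulerPoly
  rw [← reverse_mul_of_domain, ← LinearMap.charpoly_prodMap]
  congr 1
  have h1 : (fixProd e he P).conj ((τ ⟨φ⁻¹, inv_mem h.1⟩).restrict (stable h τ)) =
      ((ρ ⟨φ⁻¹, inv_mem h.1⟩).restrict (stable h ρ)).prodMap
        ((σ ⟨φ⁻¹, inv_mem h.1⟩).restrict (stable h σ)) := by
    apply LinearMap.ext
    intro y
    rw [LinearEquiv.conj_apply_apply]
    have h2 := he ⟨φ⁻¹, inv_mem h.1⟩ (e.symm (y.1.1, y.2.1))
    rw [LinearEquiv.apply_symm_apply] at h2
    apply Prod.ext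
    · apply Subtype.ext
      show (e (τ ⟨φ⁻¹, inv_mem h.1⟩ (e.symm (y.1.1, y.2.1)))).1 = ρ _ y.1.1
      rw [h2]
    · apply Subtype.ext
      show (e (τ ⟨φ⁻¹, inv_mem h.1⟩ (e.symm (y.1.1, y.2.1)))).2 = σ _ y.2.1
      rw [h2]
  rw [← h1, LinearEquiv.charpoly_conj]

theorem euler_one [Subsingleton V] : eulerPoly ρ h = 1 := by
  unfold eulerPoly
  have h1 : LinearMap.charpoly ((ρ ⟨φ⁻¹, inv_mem h.1⟩).restrict (stable h ρ)) = 1 := by
    have hm := LinearMap.charpoly_monic ((ρ ⟨φ⁻¹, inv_mem h.1⟩).restrict (stable h ρ))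
    have hd : (LinearMap.charpoly ((ρ ⟨φ⁻¹, inv_mem h.1⟩).restrict (stable h ρ))).natDegree
        = 0 := by
      rw [LinearMap.charpoly_natDegree]
      exact Module.finrank_zero_of_subsingleton
    exact eq_one_of_monic_natDegree_zero hm hd
  rw [h1]
  exact reverse_C 1

/-- the Euler polynomial of the restriction of a representation of the whole group -/
theorem euler_res (ρ : Representation ℂ Gal(AlgebraicClosure K/K) V) :
    eulerPoly (ρ.comp H.subtype) h = BK.eulerPoly ρ h := by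
  unfold eulerPoly BK.eulerPoly
  congr 1
  let e : fixI (ρ.comp H.subtype) P ≃ₗ[ℂ] BK.inv (inert H P) ρ :=
    { toFun := fun x => ⟨x.1, fun g hg => x.2 ⟨g, hg.1⟩ hg⟩
      map_add' := fun x y => rfl
      map_smul' := fun c x => rfl
      invFun := fun x => ⟨x.1, fun g hg => x.2 g hg⟩
      left_inv := fun x => rfl
      right_inv := fun x => rfl }
  have h1 : e.conj (((ρ.comp H.subtype) ⟨φ⁻¹, inv_mem h.1⟩).restrict
      (stable h (ρ.comp H.subtype))) = (ρ φ⁻¹).restrict (h.stable ρ) := by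
    apply LinearMap.ext
    intro y
    rfl
  rw [← h1, LinearEquiv.charpoly_conj]

end euler

section tensor

variable {G : Type} [Group G] {V C U U₁ U₂ : Type} [AddCommGroup V] [Module ℂ V]
  [AddCommGroup C] [Module ℂ C] [AddCommGroup U] [Module ℂ U] [AddCommGroup U₁] [Module ℂ U₁]
  [AddCommGroup U₂] [Module ℂ U₂]

/-- tensor products with a sum on the right -/
theorem tens_right (ρ : Representation ℂ G V) {ω : Representation ℂ G U}
    {ω₁ : Representation ℂ G U₁} {ω₂ : Representation ℂ G U₂} (e : U ≃ₗ[ℂ] U₁ × U₂)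
    (he : ∀ g x, e (ω g x) = (ω₁ g (e x).1, ω₂ g (e x).2)) :
    ∃ E : V ⊗[ℂ] U ≃ₗ[ℂ] (V ⊗[ℂ] U₁) × (V ⊗[ℂ] U₂), ∀ g x,
      E (Representation.tprod ρ ω g x) = (Representation.tprod ρ ω₁ g (E x).1,
        Representation.tprod ρ ω₂ g (E x).2) := by
  refine ⟨(TensorProduct.congr (LinearEquiv.refl ℂ V) e).trans
    (TensorProduct.prodRight ℂ ℂ V U₁ U₂), fun g x => ?_⟩
  induction x using TensorProduct.induction_on with
  | zero =>
    simp only [map_zero, Prod.fst_zero, Prod.snd_zero]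
    rfl
  | tmul v u =>
    simp [Representation.tprod_apply, he]
  | add x y hx hy => rw [map_add, map_add, hx, hy, map_add]; simp

/-- tensor products with a sum on the left -/
theorem tens_left (ρ : Representation ℂ G C) {ω : Representation ℂ G U}
    {ω₁ : Representation ℂ G U₁} {ω₂ : Representation ℂ G U₂} (e : U ≃ₗ[ℂ] U₁ × U₂)
    (he : ∀ g x, e (ω g x) = (ω₁ g (e x).1, ω₂ g (e x).2)) :
    ∃ E : U ⊗[ℂ] C ≃ₗ[ℂ] (U₁ ⊗[ℂ] C) × (U₂ ⊗[ℂ] C), ∀ g x,
      E (Representation.tprod ω ρ g x) = (Representation.tprod ω₁ ρ g (E x).1,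
        Representation.tprod ω₂ ρ g (E x).2) := by
  refine ⟨(TensorProduct.congr e (LinearEquiv.refl ℂ C)).trans
    (TensorProduct.prodLeft ℂ ℂ U₁ U₂ C), fun g x => ?_⟩
  have h1 : ∀ (p : U₁ × U₂) (c : C), TensorProduct.prodLeft ℂ ℂ U₁ U₂ C (p ⊗ₜ c)
      = (p.1 ⊗ₜ c, p.2 ⊗ₜ c) := fun p c => rfl
  induction x using TensorProduct.induction_on with
  | zero =>
    simp only [map_zero, Prod.fst_zero, Prod.snd_zero]
    rfl
  | tmul v u =>
    simp only [Representation.tprod_apply, LinearEquiv.trans_apply, TensorProduct.map_tmul,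
      TensorProduct.congr_tmul, LinearEquiv.refl_apply, h1, he]
  | add x y hx hy => rw [map_add, map_add, hx, hy, map_add]; simp

/-- the invariants of a sum -/
theorem invs_prod (ω : Representation ℂ G U)
    (ω₁ : Representation ℂ G U₁) (ω₂ : Representation ℂ G U₂) (e : U ≃ₗ[ℂ] U₁ × U₂)
    (he : ∀ g x, e (ω g x) = (ω₁ g (e x).1, ω₂ g (e x).2)) :
    Module.rank ℂ (Representation.invariants ω)
      = Module.rank ℂ (Representation.invariants ω₁) + Module.rank ℂ (Representation.invariants ω₂) := by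
  have h1 : ∀ {X : Type} [AddCommGroup X] [Module ℂ X] (α : Representation ℂ G X),
      Representation.invariants α = BK.inv ⊤ α := by
    intro X _ _ α
    ext x
    exact ⟨fun h g _ => h g, fun h g => h g (Subgroup.mem_top g)⟩
  rw [h1, h1, h1, (BK.invProd e he ⊤).rank_eq, rank_prod']

end tensor

end Pool.Agent.K4H36.TP
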