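import Mathlib

/-!
# Simultaneous diagonalisation of a representation with finite cyclic image
-/

set_option autoImplicit false

namespace Pool.Agent.K4H36.TP

open Module Polynomial

/-- an endomorphism with `A^N = 1` of a finite dimensional complex vector space has a basis of eigenvectors -/
theorem exists_basis {U : Type} [AddCommGroup U] [Module ℂ U] [FiniteDimensional ℂ U] (A : Module.End ℂ U)
    (N : ℕ) (hN : 0 < N) (hA : A ^ N = 1) :
    ∃ (d : ℕ) (b : Basis (Fin d) ℂ U), ∀ j, ∃ a : ℂ, A (b j) = a • b j := by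
  classical
  have hsq : Squarefree (X ^ N - C (1 : ℂ)) := by
    have h1 : (X ^ N - C (1 : ℂ)).Separable :=
      separable_X_pow_sub_C (1 : ℂ) (by exact_mod_cast hN.ne') one_ne_zero
    exact h1.squarefree
  have hss : A.IsSemisimple := by
    refine Module.End.isSemisimple_of_squarefree_aeval_eq_zero hsq ?_
    simp [hA]
  have hfs : A.IsFinitelySemisimple := hss.isFinitelySemisimple
  have htop : ⨆ μ : ℂ, A.eigenspace μ = ⊤ := by
    rw [← Module.End.iSup_maxGenEigenspace_eq_top A]
    exact iSup_congr fun μ => (hfs.maxGenEigenspace_eq_eigenspace μ).symm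
  have hint : DirectSum.IsInternal fun μ : ℂ => A.eigenspace μ :=
    DirectSum.isInternal_submodule_of_iSupIndep_of_iSup_eq_top A.eigenspaces_iSupIndep htop
  let b₀ := hint.collectedBasis fun μ => Module.finBasis ℂ (A.eigenspace μ)
  have hfin : Finite ((μ : ℂ) × Fin (finrank ℂ (A.eigenspace μ))) := Module.Finite.finite_basis b₀
  have := Fintype.ofFinite ((μ : ℂ) × Fin (finrank ℂ (A.eigenspace μ)))
  refine ⟨_, b₀.reindex (Fintype.equivFin _), fun j => ?_⟩
  rw [Basis.reindex_apply]
  set i := (Fintype.equivFin ((μ : ℂ) × Fin (finrank ℂ (A.eigenspace μ)))).symm j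
  refine ⟨i.1, ?_⟩
  exact Module.End.mem_eigenspace_iff.1 (hint.collectedBasis_mem (fun μ => Module.finBasis ℂ (A.eigenspace μ)) i)

/-- a representation with finite cyclic image is a sum of characters -/
theorem exists_eig {G U : Type} [Group G] [AddCommGroup U] [Module ℂ U] [FiniteDimensional ℂ U]
    (ω : Representation ℂ G U) (c : G) (N : ℕ) (hN : 0 < N) (hc : ω c ^ N = 1)
    (hgen : ∀ g : G, ∃ k : ℤ, ω g = ω (c ^ k)) :
    ∃ (d : ℕ) (e : U ≃ₗ[ℂ] (Fin d → ℂ)) (ψ : Fin d → (G →* ℂˣ)),
      ∀ (g : G) (u : U) (j : Fin d), e (ω g u) j = (ψ j g : ℂ) * e u j := by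
  classical
  obtain ⟨d, b, hb⟩ := exists_basis (ω c) N hN hc
  -- the stabiliser of the line of `b j`
  have key : ∀ (g : G) (j : Fin d), ∃ z : ℂˣ, ω g (b j) = (z : ℂ) • b j := by
    intro g j
    let H : Subgroup G :=
      { carrier := {g | ∃ z : ℂˣ, ω g (b j) = (z : ℂ) • b j}
        mul_mem' := by
          rintro x y ⟨z, hz⟩ ⟨w, hw⟩
          refine ⟨w * z, ?_⟩
          rw [map_mul, Module.End.mul_apply, hw, map_smul, hz, smul_smul, Units.val_mul]
        one_mem' := ⟨1, by simp⟩
        inv_mem' := by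
          rintro x ⟨z, hz⟩
          refine ⟨z⁻¹, ?_⟩
          have h1 : ω x⁻¹ (ω x (b j)) = b j := by
            rw [← Module.End.mul_apply, ← map_mul, inv_mul_cancel, map_one, Module.End.one_apply]
          rw [hz, map_smul] at h1
          have h2 := congrArg (fun v => ((z⁻¹ : ℂˣ) : ℂ) • v) h1
          simp only [smul_smul, ← Units.val_mul, inv_mul_cancel, Units.val_one, one_smul] at h2
          exact h2 }
    have hcH : c ∈ H := by
      obtain ⟨a, ha⟩ := hb j
      have ha0 : a ≠ 0 := by
        intro h0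
        rw [h0, zero_smul] at ha
        have h1 : ω c⁻¹ (ω c (b j)) = b j := by
          rw [← Module.End.mul_apply, ← map_mul, inv_mul_cancel, map_one, Module.End.one_apply]
        rw [ha, map_zero] at h1
        exact b.ne_zero j h1.symm
      exact ⟨Units.mk0 a ha0, ha⟩
    obtain ⟨k, hk⟩ := hgen g
    obtain ⟨z, hz⟩ := H.zpow_mem hcH k
    exact ⟨z, by rw [hk]; exact hz⟩
  choose z hz using key
  have huniq : ∀ (j : Fin d) (x y : ℂˣ), (x : ℂ) • b j = (y : ℂ) • b j → x = y := by
    intro j x y h
    exact Units.ext (smul_left_injective ℂ (b.ne_zero j) h)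
  let ψ : Fin d → (G →* ℂˣ) := fun j =>
    { toFun := fun g => z g j
      map_one' := huniq j _ _ (by rw [← hz]; simp)
      map_mul' := fun x y => huniq j _ _ (by
        rw [← hz, map_mul, Module.End.mul_apply, hz y, map_smul, hz x, smul_smul, Units.val_mul, mul_comm]) }
  refine ⟨d, b.equivFun, ψ, fun g u j => ?_⟩
  have h1 : (b.coord j).comp (ω g) = (ψ j g : ℂ) • b.coord j := by
    refine b.ext fun i => ?_
    rw [LinearMap.comp_apply, hz g i, map_smul, LinearMap.smul_apply]
    simp only [Basis.coord_apply, Basis.repr_self, smul_eq_mul]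
    by_cases hij : i = j
    · subst hij
      rfl
    · rw [Finsupp.single_eq_of_ne' hij]
      simp
  have h2 := LinearMap.congr_fun h1 u
  simpa using h2

end Pool.Agent.K4H36.TP
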