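import Mathlib
import Pool.Agent.K4H36.TP.Add

/-!
# The order formula for sums of characters
-/

set_option autoImplicit false
set_option linter.unusedSectionVars false

namespace Pool.Agent.K4H36.TP

open NumberField Polynomial IsDedekindDomain
open Pool.Agent.K4H36.BK (inert IsFrob)
open scoped Pointwise TensorProduct

variable {K : Type} [Field K] {V : Fam K} {C : Type} [AddCommGroup C] [Module ℂ C]
  {γ : Representation ℂ Gal(AlgebraicClosure K/K) C}
  {F : IntermediateField K (AlgebraicClosure K)}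
  {U U₁ U₂ : Type} [AddCommGroup U] [Module ℂ U] [FiniteDimensional ℂ U] [AddCommGroup U₁]
  [Module ℂ U₁] [FiniteDimensional ℂ U₁] [AddCommGroup U₂] [Module ℂ U₂] [FiniteDimensional ℂ U₂]

theorem Formula.add {ω : Representation ℂ F.fixingSubgroup U}
    {ω₁ : Representation ℂ F.fixingSubgroup U₁} {ω₂ : Representation ℂ F.fixingSubgroup U₂}
    {Ω : Set ℂ} (e : U ≃ₗ[ℂ] U₁ × U₂) (he : ∀ g x, e (ω g x) = (ω₁ g (e x).1, ω₂ g (e x).2))
    (h0 : (0 : ℂ) ∈ Ω) (h₁ : Formula V γ F ω₁ Ω) (h₂ : Formula V γ F ω₂ Ω) :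
    Formula V γ F ω Ω := by
  obtain ⟨P₁, hP₁, c₁, L₁, hc₁, hL₁, hs₁, n₁, hn₁, ho₁⟩ := h₁
  obtain ⟨P₂, hP₂, c₂, L₂, hc₂, hL₂, hs₂, n₂, hn₂, ho₂⟩ := h₂
  refine ⟨fun w => P₁ w * P₂ w, ?_, max c₁ c₂, L₁ * L₂, ?_, hL₁.mul hL₂, ?_, n₁ + n₂, ?_, ?_⟩
  · intro w ℓ _ hℓ W hW hWw φ h
    obtain ⟨E, hE⟩ := tens_right ((V.ρ ℓ).comp F.fixingSubgroup.subtype) e he
    rw [euler_mul _ _ _ h E hE, hP₁ w ℓ hℓ W hW hWw φ h, hP₂ w ℓ hℓ W hW hWw φ h]
  · intro s hs
    have h1 : c₁ < s.re := lt_of_le_of_lt (le_max_left c₁ c₂) hs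
    exact hc₁ h1
  · intro s hs
    obtain ⟨h1, h2⟩ := hs₁ s (lt_of_le_of_lt (le_max_left _ _) hs)
    obtain ⟨h3, h4⟩ := hs₂ s (lt_of_le_of_lt (le_max_right _ _) hs)
    have hf : ∀ w, factor (fun w => P₁ w * P₂ w) s w = factor P₁ s w * factor P₂ s w := by
      intro w
      rw [factor, factor, factor, eval_mul, mul_inv]
    refine ⟨fun w => ?_, ?_⟩
    · rw [hf]
      exact mul_ne_zero (h1 w) (h3 w)
    · have h5 := h2.mul h4
      have h6 : factor (fun w => P₁ w * P₂ w) s = fun w => factor P₁ s w * factor P₂ s w :=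
        funext hf
      rw [h6]
      exact h5
  · obtain ⟨E, hE⟩ := tens_left (γ.comp F.fixingSubgroup.subtype) e he
    rw [invs_prod _ _ _ E hE, hn₁, hn₂, Nat.cast_add]
  · rw [meromorphicOrderAt_mul (hL₁ 0 h0) (hL₂ 0 h0), ho₁, ho₂]
    push_cast
    rfl

theorem Formula.zero [Subsingleton U] (ω : Representation ℂ F.fixingSubgroup U) {Ω : Set ℂ}
    {c : ℝ} (hc : {s : ℂ | c < s.re} ⊆ Ω) : Formula V γ F ω Ω := by
  refine ⟨fun _ => 1, ?_, c, fun _ => 1, hc, fun s _ => MeromorphicAt.const 1 s, ?_, 0, ?_, ?_⟩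
  · intro w ℓ _ hℓ W hW hWw φ h
    have : Subsingleton (V.V ℓ ⊗[ℂ] U) := by
      refine ⟨fun a b => ?_⟩
      have h0 : ∀ a : V.V ℓ ⊗[ℂ] U, a = 0 := by
        intro a
        induction a using TensorProduct.induction_on with
        | zero => rfl
        | tmul v u => rw [Subsingleton.elim u 0, TensorProduct.tmul_zero]
        | add x y hx hy => rw [hx, hy, add_zero]
      rw [h0 a, h0 b]
    exact euler_one _ h
  · intro s _
    have hf : ∀ w : HeightOneSpectrum (𝓞 F), factor (fun _ => 1) s w = 1 := by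
      intro w
      rw [factor, eval_one, inv_one]
    refine ⟨fun w => ?_, ?_⟩
    · rw [hf]
      exact one_ne_zero
    · have h6 : factor (fun _ => 1) s = fun _ : HeightOneSpectrum (𝓞 F) => (1 : ℂ) := funext hf
      rw [h6]
      exact hasProd_one
  · have h0 : ∀ a : U ⊗[ℂ] C, a = 0 := by
      intro a
      induction a using TensorProduct.induction_on with
      | zero => rfl
      | tmul v u => rw [Subsingleton.elim v 0, TensorProduct.zero_tmul]
      | add x y hx hy => rw [hx, hy, add_zero]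
    have : Subsingleton (Representation.invariants
        (Representation.tprod ω (γ.comp F.fixingSubgroup.subtype))) :=
      ⟨fun a b => Subtype.ext ((h0 a.1).trans (h0 b.1).symm)⟩
    rw [rank_subsingleton' _ _, Nat.cast_zero]
  · classical
    rw [meromorphicOrderAt_const, if_neg one_ne_zero]
    rfl

theorem Formula.congr {ω : Representation ℂ F.fixingSubgroup U}
    {ω₁ : Representation ℂ F.fixingSubgroup U₁} {Ω : Set ℂ} {c : ℝ}
    (hc : {s : ℂ | c < s.re} ⊆ Ω) (h0 : (0 : ℂ) ∈ Ω) (e : U ≃ₗ[ℂ] U₁)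
    (he : ∀ g x, e (ω g x) = ω₁ g (e x)) (h₁ : Formula V γ F ω₁ Ω) : Formula V γ F ω Ω := by
  let ω₂ : Representation ℂ F.fixingSubgroup (Fin 0 → ℂ) := 1
  refine Formula.add (ω₂ := ω₂) (e.trans (LinearEquiv.prodUnique (R := ℂ) (M := U₁)
    (M₂ := Fin 0 → ℂ)).symm) ?_ h0 h₁ (Formula.zero ω₂ hc)
  intro g x
  apply Prod.ext
  · exact he g x
  · exact Subsingleton.elim _ _

theorem Formula.mono {ω : Representation ℂ F.fixingSubgroup U} {a b : ℝ} (hab : a ≤ b)
    (h : Formula V γ F ω {s | a < s.re}) : Formula V γ F ω {s | b < s.re} := by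
  obtain ⟨P, hP, c, L, hc, hL, hs, n, hn, ho⟩ := h
  refine ⟨P, hP, max c b, L, ?_, ?_, ?_, n, hn, ho⟩
  · intro s hs
    have h1 : b < s.re := lt_of_le_of_lt (le_max_right c b) hs
    exact h1
  · exact hL.mono_set (fun s (hs : b < s.re) => lt_of_le_of_lt hab hs)
  · intro s h1
    exact hs s (lt_of_le_of_lt (le_max_left _ _) h1)

/-- the diagonal representation -/
def diag {G : Type} [Group G] {d : ℕ} (ψ : Fin d → (G →* ℂˣ)) : Representation ℂ G (Fin d → ℂ) where
  toFun g :=
    { toFun := fun x j => (ψ j g : ℂ) * x j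
      map_add' := fun x y => by
        funext j
        simp [mul_add]
      map_smul' := fun c x => by
        funext j
        simp [mul_left_comm] }
  map_one' := by
    ext x j
    simp
  map_mul' g h := by
    apply LinearMap.ext
    intro x
    funext j
    simp [mul_assoc]

theorem formula_diag : ∀ (d : ℕ) (ψ : Fin d → (F.fixingSubgroup →* ℂˣ)),
    (∀ j, ∃ a < (0 : ℝ), Formula V γ F (chr (ψ j)) {s | a < s.re}) →
    ∃ a < (0 : ℝ), Formula V γ F (diag ψ) {s | a < s.re} := by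
  intro d
  induction d with
  | zero =>
    intro ψ _
    exact ⟨-1, by norm_num, Formula.zero (diag ψ) (c := -1) (fun s hs => hs)⟩
  | succ d ih =>
    intro ψ h
    obtain ⟨a, ha, h1⟩ := h 0
    obtain ⟨b, hb, h2⟩ := ih (fun j => ψ j.succ) (fun j => h j.succ)
    refine ⟨max a b, max_lt ha hb, ?_⟩
    let e : (Fin (d + 1) → ℂ) ≃ₗ[ℂ] ℂ × (Fin d → ℂ) :=
      { toFun := fun x => (x 0, fun j => x j.succ)
        map_add' := fun x y => rfl
        map_smul' := fun c x => rfl
        invFun := fun p => Fin.cons p.1 p.2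
        left_inv := fun x => by
          funext j
          refine Fin.cases ?_ (fun i => ?_) j
          · simp
          · simp
        right_inv := fun p => by
          apply Prod.ext
          · simp
          · funext j
            simp }
    refine Formula.add e (fun g x => ?_) (max_lt ha hb) (h1.mono (le_max_left _ _))
      (h2.mono (le_max_right _ _))
    apply Prod.ext
    · rfl
    · rfl

theorem formula_of_eig {ω : Representation ℂ F.fixingSubgroup U} {d : ℕ}
    (e : U ≃ₗ[ℂ] (Fin d → ℂ)) (ψ : Fin d → (F.fixingSubgroup →* ℂˣ))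
    (he : ∀ g u j, e (ω g u) j = (ψ j g : ℂ) * e u j)
    (h : ∀ j, ∃ a < (0 : ℝ), Formula V γ F (chr (ψ j)) {s | a < s.re}) :
    ∃ a < (0 : ℝ), Formula V γ F ω {s | a < s.re} := by
  obtain ⟨a, ha, h1⟩ := formula_diag d ψ h
  refine ⟨a, ha, Formula.congr (c := a) (fun s hs => hs) ha e (fun g x => ?_) h1⟩
  funext j
  exact he g x j

end Pool.Agent.K4H36.TP
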