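import Mathlib
import Pool.Agent.K4H36.BK.Grp
import Pool.Agent.K4H36.TP.Def

/-!
# The Euler factors of `F` grouped by the places of `K`, complex coefficients
-/

set_option autoImplicit false
set_option linter.unusedSectionVars false

namespace Pool.Agent.K4H36.TP

open NumberField Polynomial IsDedekindDomain MulAction
open Pool.Agent.K4H36.BK (inert IsFrob GK Kb ext above IsDeg exists_deg finite_fibre)
open scoped Pointwise

section grp

variable {K : Type} [Field K] [NumberField K]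

/-- the product of the Euler polynomials above `v` -/
noncomputable def Qp (F : IntermediateField K (Kb K)) (P : HeightOneSpectrum (𝓞 F) → ℂ[X])
    (f : Ideal (𝓞 F) → ℕ) (v : HeightOneSpectrum (𝓞 K)) : ℂ[X] :=
  ∏ᶠ w ∈ above F v, (P w).comp (X ^ f w.asIdeal)

variable {F : IntermediateField K (Kb K)} [FiniteDimensional K F]

lemma Qp_eq (P : HeightOneSpectrum (𝓞 F) → ℂ[X]) (f : Ideal (𝓞 F) → ℕ)
    (v : HeightOneSpectrum (𝓞 K)) :
    Qp F P f v = ∏ w ∈ (finite_fibre F v).toFinset, (P w).comp (X ^ f w.asIdeal) :=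
  finprod_mem_eq_finite_toFinset_prod _ (finite_fibre F v)

lemma Qp_coeff {P : HeightOneSpectrum (𝓞 F) → ℂ[X]} {f : Ideal (𝓞 F) → ℕ} (hf : IsDeg F f)
    (hP : ∀ w, (P w).coeff 0 = 1) (v : HeightOneSpectrum (𝓞 K)) : (Qp F P f v).coeff 0 = 1 := by
  have : NumberField F := NumberField.of_module_finite K F
  rw [Qp_eq, coeff_zero_eq_eval_zero, eval_prod]
  refine Finset.prod_eq_one fun w _ => ?_
  rw [eval_comp, eval_pow, eval_X, zero_pow (hf _ w.isMaximal).1, ← coeff_zero_eq_eval_zero, hP]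

lemma Qp_root {P : HeightOneSpectrum (𝓞 F) → ℂ[X]} {f : Ideal (𝓞 F) → ℕ}
    {v : HeightOneSpectrum (𝓞 K)} {z : ℂ} (h : (Qp F P f v).eval z = 0) :
    ∃ w ∈ above F v, (P w).eval (z ^ f w.asIdeal) = 0 := by
  rw [Qp_eq, eval_prod, Finset.prod_eq_zero_iff] at h
  obtain ⟨w, hw, h1⟩ := h
  refine ⟨w, (finite_fibre F v).mem_toFinset.mp hw, ?_⟩
  rw [eval_comp, eval_pow, eval_X] at h1
  exact h1

/-- the factor at `v` -/
lemma Qp_factor {P : HeightOneSpectrum (𝓞 F) → ℂ[X]} {f : Ideal (𝓞 F) → ℕ} (hf : IsDeg F f)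
    (v : HeightOneSpectrum (𝓞 K)) (s : ℂ) :
    factor (Qp F P f) s v = ∏ᶠ w ∈ above F v, factor P s w := by
  have : NumberField F := NumberField.of_module_finite K F
  have h1 : ∏ᶠ w ∈ above F v, factor P s w = ∏ w ∈ (finite_fibre F v).toFinset, factor P s w :=
    finprod_mem_eq_finite_toFinset_prod _ (finite_fibre F v)
  rw [h1, factor, Qp_eq, eval_prod, ← Finset.prod_inv_distrib]
  refine Finset.prod_congr rfl fun w hw => ?_
  have hw' : w.asIdeal.comap (algebraMap (𝓞 K) (𝓞 F)) = v.asIdeal :=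
    (finite_fibre F v).mem_toFinset.mp hw
  rw [factor, eval_comp, eval_pow, eval_X]
  congr 2
  rw [(hf _ w.isMaximal).2, hw', Nat.cast_pow, ← Complex.natCast_cpow_natCast_mul]
  rw [← Complex.cpow_nat_mul]

/-- Artin formalism at `v` -/
lemma Qp_shapiro {V : Type} [AddCommGroup V] [Module ℂ V]
    [FiniteDimensional ℂ V] (ρ : Representation ℂ (GK K) V)
    {P : HeightOneSpectrum (𝓞 F) → ℂ[X]} {f : Ideal (𝓞 F) → ℕ} (hf : IsDeg F f)
    [Finite (GK K ⧸ F.fixingSubgroup)] {v : HeightOneSpectrum (𝓞 K)} {W : Ideal (𝓞 (Kb K))}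
    (hW : W.IsMaximal) (hWv : W.comap (algebraMap (𝓞 K) (𝓞 (Kb K))) = v.asIdeal) {φ : GK K}
    (h : IsFrob ⊤ W (Nat.card (𝓞 K ⧸ v.asIdeal)) φ)
    (hP : ∀ w ∈ above F v, ∀ W : Ideal (𝓞 (Kb K)), W.IsMaximal →
      W.comap (algebraMap (𝓞 F) (𝓞 (Kb K))) = w.asIdeal →
      ∀ (φ : GK K) (h : IsFrob F.fixingSubgroup W (Nat.card (𝓞 F ⧸ w.asIdeal)) φ),
        BK.eulerPoly ρ h = P w) :
    BK.eulerPoly (ext (GK K ⧸ F.fixingSubgroup) ρ) h = Qp F P f v := by
  classical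
  have : NumberField F := NumberField.of_module_finite K F
  have hne : ∀ w : Ideal (𝓞 F), w.IsMaximal → w ≠ ⊥ := fun w hw h1 =>
    Ring.ne_bot_of_isMaximal_of_not_isField hw (RingOfIntegers.not_isField F) h1
  let mk : ∀ w : Ideal (𝓞 F), w.IsMaximal → HeightOneSpectrum (𝓞 F) := fun w hw =>
    ⟨w, hw.isPrime, hne w hw⟩
  let P' : Ideal (𝓞 F) → ℂ[X] := fun w =>
    if hw : w.IsMaximal then P (mk w hw) else 1
  have hP' : ∀ w : HeightOneSpectrum (𝓞 F), P' w.asIdeal = P w := by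
    intro w
    simp only [P']
    rw [dif_pos w.isMaximal]
  have h0 : IsFrob ⊤ W (Nat.card (𝓞 K ⧸ W.comap (algebraMap (𝓞 K) (𝓞 (Kb K))))) φ := by
    rw [hWv]
    exact h
  have h1 := BK.euler_shapiro F hW h0 ρ P' f
    (fun w hw hwv => by
      rw [(hf w hw).2, hwv])
    (fun w hw hwv W' hW' hW'w φ' h' => by
      have h2 := hP (mk w hw) (by
        change w.comap _ = _
        rw [hwv, hWv]) W' hW' hW'w φ' h'
      rw [h2]
      exact (hP' (mk w hw)).symm)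
  rw [BK.eulerPoly_eq (ext (GK K ⧸ F.fixingSubgroup) ρ) h h0 rfl (by rw [hWv]), h1]
  have h2 : {w : Ideal (𝓞 F) | w.IsMaximal ∧ w.comap (algebraMap (𝓞 K) (𝓞 F))
      = W.comap (algebraMap (𝓞 K) (𝓞 (Kb K)))} = (fun w => w.asIdeal) '' above F v := by
    ext w
    constructor
    · rintro ⟨hw, hwv⟩
      exact ⟨mk w hw, hwv.trans hWv, rfl⟩
    · rintro ⟨w, hw, rfl⟩
      exact ⟨w.isMaximal, by rw [hWv]; exact hw⟩
  rw [h2, finprod_mem_image (fun a _ b _ hab => HeightOneSpectrum.ext hab)]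
  have h3 : ∏ᶠ w ∈ above F v, (P' w.asIdeal).comp (X ^ f w.asIdeal)
      = ∏ w ∈ (finite_fibre F v).toFinset, (P' w.asIdeal).comp (X ^ f w.asIdeal) :=
    finprod_mem_eq_finite_toFinset_prod _ (finite_fibre F v)
  rw [h3, Qp_eq]
  refine Finset.prod_congr rfl fun w _ => ?_
  rw [hP']

end grp

section roots

variable {F : Type} [Field F] [NumberField F]

/-- the roots of the Euler polynomials, if the Euler product has no infinite factor -/
lemma root_bound (P : HeightOneSpectrum (𝓞 F) → ℂ[X]) (hP : ∀ w, (P w).coeff 0 = 1) (c : ℝ)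
    (h : ∀ s : ℂ, c < s.re → ∀ w, factor P s w ≠ 0) (w : HeightOneSpectrum (𝓞 F)) (z : ℂ)
    (hz : (P w).eval z = 0) : (Nat.card (𝓞 F ⧸ w.asIdeal) : ℝ) ^ (-c) ≤ ‖z‖ := by
  by_contra hlt
  push Not at hlt
  have hq := BK.one_lt_card w
  have hq0 : (0 : ℝ) < Nat.card (𝓞 F ⧸ w.asIdeal) := by
    exact_mod_cast (by omega : 0 < Nat.card (𝓞 F ⧸ w.asIdeal))
  have hlog : 0 < Real.log (Nat.card (𝓞 F ⧸ w.asIdeal)) :=
    Real.log_pos (by exact_mod_cast hq)
  have hz0 : z ≠ 0 := by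
    rintro rfl
    rw [← coeff_zero_eq_eval_zero, hP] at hz
    simp at hz
  -- the exponent
  let s : ℂ := -(Complex.log z / Real.log (Nat.card (𝓞 F ⧸ w.asIdeal)))
  have hqC : (Nat.card (𝓞 F ⧸ w.asIdeal) : ℂ) ≠ 0 := by exact_mod_cast hq0.ne'
  have hs : (Nat.card (𝓞 F ⧸ w.asIdeal) : ℂ) ^ (-s) = z := by
    rw [Complex.cpow_def_of_ne_zero hqC]
    have h1 : Complex.log (Nat.card (𝓞 F ⧸ w.asIdeal) : ℂ)
        = (Real.log (Nat.card (𝓞 F ⧸ w.asIdeal)) : ℂ) := by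
      rw [Complex.ofReal_log hq0.le, Complex.ofReal_natCast]
    rw [h1]
    have h2 : (Real.log (Nat.card (𝓞 F ⧸ w.asIdeal)) : ℂ) ≠ 0 := by exact_mod_cast hlog.ne'
    have h3 : (Real.log (Nat.card (𝓞 F ⧸ w.asIdeal)) : ℂ) * -s = Complex.log z := by
      change _ * -(-(Complex.log z / _)) = _
      rw [neg_neg]
      field_simp
    rw [h3, Complex.exp_log hz0]
  have hre : c < s.re := by
    have h1 : s.re = -(Real.log ‖z‖ / Real.log (Nat.card (𝓞 F ⧸ w.asIdeal))) := by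
      change (-(Complex.log z / (Real.log (Nat.card (𝓞 F ⧸ w.asIdeal)) : ℂ))).re = _
      rw [Complex.neg_re, Complex.div_ofReal_re, Complex.log_re]
    rw [h1]
    have h2 : Real.log ‖z‖ < -c * Real.log (Nat.card (𝓞 F ⧸ w.asIdeal)) := by
      rw [← Real.log_rpow hq0]
      exact Real.log_lt_log (norm_pos_iff.mpr hz0) hlt
    rw [lt_neg, div_lt_iff₀ hlog]
    exact h2
  have h1 := h s hre w
  rw [factor, hs, hz, inv_zero] at h1
  exact h1 rfl

/-- the Euler product converges -/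
lemma prod_conv (P : HeightOneSpectrum (𝓞 F) → ℂ[X]) {d : ℕ} {c : ℝ}
    (hP : ∀ w, (P w).coeff 0 = 1 ∧ (P w).natDegree ≤ d)
    (hr : ∀ w (z : ℂ), (P w).eval z = 0 → (Nat.card (𝓞 F ⧸ w.asIdeal) : ℝ) ^ (-c) ≤ ‖z‖) :
    (∀ s : ℂ, c + 1 < s.re → Multipliable (factor P s)) ∧
    (∀ s : ℂ, c + 1 < s.re → ∏' w, factor P s w ≠ 0) ∧
    DifferentiableOn ℂ (fun s => ∏' w, factor P s w) {s : ℂ | c + 1 < s.re} := by
  have hcard : ∀ w : HeightOneSpectrum (𝓞 F), Ideal.absNorm w.asIdeal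
      = Nat.card (𝓞 F ⧸ w.asIdeal) := fun w => by
    rw [Ideal.absNorm_apply, Submodule.cardQuot_apply]
  have h := BK.euler_prod F P d c
    (fun w => (hP w).1)
    (fun w => (hP w).2)
    (fun w z hz => by
      rw [hcard]
      exact hr w z hz)
  have hf : ∀ s w, BK.eul F P s w = factor P s w := by
    intro s w
    rw [BK.eul, factor, hcard]
  have hf' : ∀ s, BK.eul F P s = factor P s := fun s =>
    funext (hf s)
  simp only [hf, hf'] at h
  exact h

end roots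

end Pool.Agent.K4H36.TP
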