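import Mathlib
import Pool.Agent.K4H36.TP.Form
import Pool.Agent.K4H36.TP.Qpc
import Pool.Agent.K4H36.TP.Eig
import Pool.Agent.K4H36.BK.Fin

/-!
# The order formula over the members of a relation implies the order formula over `K`
-/

set_option autoImplicit false
set_option linter.unusedSectionVars false

namespace Pool.Agent.K4H36.TP

open NumberField Polynomial IsDedekindDomain MulAction
open Pool.Agent.K4H36.BK (inert IsFrob GK Kb ext above IsDeg exists_deg finite_fibre nco Idx botPl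
  nfix Pt)
open scoped Pointwise TensorProduct

variable {K : Type} [Field K] [NumberField K]

section dims

variable {r : ℕ} {F : Fin r → IntermediateField K (Kb K)} {n n' : Fin r → ℕ} {M : ℕ}

/-- the relations between the invariants, in any dimension -/
theorem rel_inv_rank (hF : ∀ i, FiniteDimensional K (F i))
    (hrel : ∀ g : GK K, M + ∑ i, n i * nco (F i) g = ∑ i, n' i * nco (F i) g)
    {V : Type} [AddCommGroup V] [Module ℂ V] (ρ : Representation ℂ (GK K) V) :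
    M • Module.rank ℂ (BK.inv (⊥ : IntermediateField K (Kb K)).fixingSubgroup ρ)
      + ∑ i, n i • Module.rank ℂ (BK.inv (F i).fixingSubgroup ρ)
      = ∑ i, n' i • Module.rank ℂ (BK.inv (F i).fixingSubgroup ρ) := by
  have hfin : ∀ i, Finite (GK K ⧸ (F i).fixingSubgroup) := fun i => BK.finite_cosets (F i)
  have hfin0 : Finite (Pt K) := BK.finite_cosets _
  have h := BK.rel_of F n n' M hrel
    (fun X _ _ => Module.rank ℂ (BK.inv (⊤ : Subgroup (GK K)) (ext X ρ)))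
    (fun X Y Z _ _ _ _ _ _ i j h1 h2 h3 => by
      obtain ⟨e, he⟩ := BK.ext_sum' ρ X Y Z i j h1 h2 h3
      rw [(BK.invProd e he ⊤).rank_eq, rank_prod'])
    (fun X Y _ _ _ _ h1 => by
      obtain ⟨e, he⟩ := BK.ext_of_nfix ρ X Y h1
      exact (BK.invEquiv e he ⊤).rank_eq)
    (fun X _ _ h1 => by
      exact rank_subsingleton' _ _)
  have hsh : ∀ E : IntermediateField K (Kb K), FiniteDimensional K E →
      Module.rank ℂ (BK.inv (⊤ : Subgroup (GK K)) (ext (GK K ⧸ E.fixingSubgroup) ρ))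
        = Module.rank ℂ (BK.inv E.fixingSubgroup ρ) := by
    intro E hE
    have hst : stabilizer (GK K) ((1 : GK K) : GK K ⧸ E.fixingSubgroup) = E.fixingSubgroup := by
      ext g
      rw [mem_stabilizer_iff, MulAction.Quotient.smul_coe, QuotientGroup.eq]
      simp
    obtain ⟨e⟩ := BK.inv_shapiro ρ (GK K ⧸ E.fixingSubgroup)
      ((1 : GK K) : GK K ⧸ E.fixingSubgroup)
      (fun x => by
        induction x using QuotientGroup.induction_on with
        | H g => exact ⟨g, by rw [MulAction.Quotient.smul_coe, smul_eq_mul, mul_one]⟩)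
    rw [e.rank_eq, hst]
  simp only [hsh _ (hF _)] at h
  rw [hsh _ inferInstance] at h
  exact h

end dims

/-- the invariants of the restriction -/
lemma rank_invs {H : Subgroup (GK K)} {U C : Type} [AddCommGroup U] [Module ℂ U] [AddCommGroup C]
    [Module ℂ C] (τ : Representation ℂ (GK K) U) (γ : Representation ℂ (GK K) C) :
    Module.rank ℂ (Representation.invariants
      (Representation.tprod (τ.comp H.subtype) (γ.comp H.subtype)))
      = Module.rank ℂ (BK.inv H (Representation.tprod τ γ)) := by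
  let e : Representation.invariants (Representation.tprod (τ.comp H.subtype) (γ.comp H.subtype))
      ≃ₗ[ℂ] BK.inv H (Representation.tprod τ γ) :=
    { toFun := fun x => ⟨x.1, fun g hg => x.2 ⟨g, hg⟩⟩
      map_add' := fun x y => rfl
      map_smul' := fun c x => rfl
      invFun := fun x => ⟨x.1, fun g => x.2 g.1 g.2⟩
      left_inv := fun x => rfl
      right_inv := fun x => rfl }
  exact e.rank_eq

/-- The coefficient `0` and the degree of the Euler polynomials. -/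
lemma euler_facts {V : ∀ (ℓ : ℕ) [Fact ℓ.Prime], Type}
    [∀ (ℓ : ℕ) [Fact ℓ.Prime], AddCommGroup (V ℓ)] [∀ (ℓ : ℕ) [Fact ℓ.Prime], Module ℂ (V ℓ)]
    [∀ (ℓ : ℕ) [Fact ℓ.Prime], FiniteDimensional ℂ (V ℓ)]
    (ρ : ∀ (ℓ : ℕ) [Fact ℓ.Prime], Representation ℂ (GK K) (V ℓ))
    (F : IntermediateField K (Kb K)) [FiniteDimensional K F]
    (P : HeightOneSpectrum (𝓞 F) → ℂ[X])
    (hP : ∀ (w : HeightOneSpectrum (𝓞 F)) (ℓ : ℕ) [Fact ℓ.Prime], (ℓ : 𝓞 F) ∉ w.asIdeal →
      ∀ W : Ideal (𝓞 (Kb K)), W.IsMaximal →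
      W.comap (algebraMap (𝓞 F) (𝓞 (Kb K))) = w.asIdeal →
      ∀ (φ : GK K) (h : IsFrob F.fixingSubgroup W (Nat.card (𝓞 F ⧸ w.asIdeal)) φ),
        BK.eulerPoly (ρ ℓ) h = P w) :
    ∃ d : ℕ, ∀ w, (P w).coeff 0 = 1 ∧ (P w).natDegree ≤ d := by
  have : NumberField F := NumberField.of_module_finite K F
  have h2 : Fact (Nat.Prime 2) := ⟨Nat.prime_two⟩
  have h3 : Fact (Nat.Prime 3) := ⟨Nat.prime_three⟩
  refine ⟨max (Module.finrank ℂ (V 2)) (Module.finrank ℂ (V 3)), fun w => ?_⟩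
  have hwm : w.asIdeal.IsMaximal := w.isMaximal
  obtain ⟨ℓ, hℓ, hℓ2, hℓw⟩ := BK.exists_ell hwm.ne_top
  obtain ⟨W, hW, hWw⟩ := BK.exists_above K F w.asIdeal hwm
  obtain ⟨φ, hφ⟩ := BK.exists_frob K F W hW
  rw [hWw] at hφ
  have h4 := hP w ℓ hℓw W hW hWw φ hφ
  constructor
  · have h5 := BK.euler_coeff (ρ ℓ) hφ
    rwa [h4] at h5
  · have h5 := BK.euler_deg (ρ ℓ) hφ
    rw [h4] at h5
    refine h5.trans ?_
    rcases hℓ2 with rfl | rfl
    · exact le_max_left _ _
    · exact le_max_right _ _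

/-- **The order formula over the members of a relation implies the order formula over `K`.** -/
theorem red_rel {r : ℕ} {F : Fin r → IntermediateField K (Kb K)} {n n' : Fin r → ℕ} {M : ℕ}
    (hM : M ≠ 0) (hF1 : ∀ i, FiniteDimensional K (F i))
    (hrel : ∀ g : GK K, M + ∑ i, n i * nco (F i) g = ∑ i, n' i * nco (F i) g)
    (V : Fam K) {C : Type} [AddCommGroup C] [Module ℂ C] (γ : Representation ℂ (GK K) C)
    {U : Type} [AddCommGroup U] [Module ℂ U] [FiniteDimensional ℂ U]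
    (τ : Representation ℂ (GK K) U)
    (hyp : ∀ i, ∃ a < (0 : ℝ), Formula V γ (F i) (τ.comp (F i).fixingSubgroup.subtype)
      {s | a < s.re}) :
    ∃ Ω : Set ℂ, IsOpen Ω ∧ IsConnected Ω ∧ (0 : ℂ) ∈ Ω ∧
      Formula V γ ⊥ (τ.comp (⊥ : IntermediateField K (Kb K)).fixingSubgroup.subtype) Ω := by
  classical
  have hFN : ∀ i, NumberField (F i) := fun i => NumberField.of_module_finite K (F i)
  have hco : ∀ i, Finite (GK K ⧸ (F i).fixingSubgroup) := fun i => BK.finite_cosets (F i)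
  let X : ∀ (ℓ : ℕ) [Fact ℓ.Prime], Representation ℂ (GK K) (V.V ℓ ⊗[ℂ] U) := fun ℓ _ =>
    Representation.tprod (V.ρ ℓ) τ
  have hX : ∀ (ℓ : ℕ) [Fact ℓ.Prime] (H : Subgroup (GK K)) {W : Ideal (𝓞 (Kb K))} {q : ℕ} {φ : GK K}
      (h : IsFrob H W q φ),
      eulerPoly (Representation.tprod ((V.ρ ℓ).comp H.subtype) (τ.comp H.subtype)) h
        = BK.eulerPoly (X ℓ) h := fun ℓ _ H W q φ h => euler_res h (X ℓ)
  choose a ha P hP' c Lf hcU hmer hconv e hrk' hord using hyp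
  have hP : ∀ i (w : HeightOneSpectrum (𝓞 (F i))) (ℓ : ℕ) [Fact ℓ.Prime],
      (ℓ : 𝓞 (F i)) ∉ w.asIdeal → ∀ W : Ideal (𝓞 (Kb K)), W.IsMaximal →
      W.comap (algebraMap (𝓞 (F i)) (𝓞 (Kb K))) = w.asIdeal →
      ∀ (φ : GK K) (h : IsFrob (F i).fixingSubgroup W (Nat.card (𝓞 (F i) ⧸ w.asIdeal)) φ),
        BK.eulerPoly (X ℓ) h = P i w := by
    intro i w ℓ _ hℓ W hW hWw φ h
    rw [← hX]
    exact hP' i w ℓ hℓ W hW hWw φ h
  have hrk : ∀ i, Module.rank ℂ (BK.inv (F i).fixingSubgroup (Representation.tprod τ γ))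
      = ((e i : ℕ) : Cardinal) := fun i => by
    rw [← rank_invs]
    exact hrk' i
  have hf := fun i => exists_deg (F i)
  choose f hf using hf
  have hPf := fun i => euler_facts X (F i) (P i) (hP i)
  choose d hd using hPf
  -- the polynomials over `K`
  have hv : ∀ v : HeightOneSpectrum (𝓞 K), ∃ P₀ : ℂ[X], P₀.coeff 0 = 1 ∧
      (∀ j : Idx v, BK.eulerPoly (X j.ℓ) j.h = P₀) ∧
      P₀ ^ M * ∏ i, Qp (F i) (P i) (f i) v ^ n i = ∏ i, Qp (F i) (P i) (f i) v ^ n' i := by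
    intro v
    have hrel' : ∀ j : Idx v, BK.eulerPoly (X j.ℓ) j.h ^ M * ∏ i, Qp (F i) (P i) (f i) v ^ n i
        = ∏ i, Qp (F i) (P i) (f i) v ^ n' i := by
      intro j
      have h1 := BK.rel_euler (n := n) (n' := n') (M := M) hF1 hrel (X j.ℓ) j.h
      have h2 : ∀ i, BK.eulerPoly (ext (GK K ⧸ (F i).fixingSubgroup) (X j.ℓ)) j.h
          = Qp (F i) (P i) (f i) v := by
        intro i
        refine Qp_shapiro (X j.ℓ) (hf i) j.hW j.hWv j.h fun w hw W hW hWw φ h => ?_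
        refine hP i w j.ℓ (fun h3 => j.hv ?_) W hW hWw φ h
        have h4 : w.asIdeal.comap (algebraMap (𝓞 K) (𝓞 (F i))) = v.asIdeal := hw
        rw [← h4, Ideal.mem_comap, map_natCast]
        exact h3
      simp only [h2] at h1
      exact h1
    obtain ⟨j₀⟩ : Nonempty (Idx v) := inferInstance
    refine ⟨BK.eulerPoly (X j₀.ℓ) j₀.h, BK.euler_coeff _ j₀.h, fun j => ?_, hrel' j₀⟩
    refine BK.root_unique (BK.euler_coeff _ j.h) (BK.euler_coeff _ j₀.h) hM ?_
    have h3 : (∏ i, Qp (F i) (P i) (f i) v ^ n i) ≠ 0 := by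
      intro h0
      have h4 : (∏ i, Qp (F i) (P i) (f i) v ^ n i).coeff 0 = 1 := by
        rw [coeff_zero_eq_eval_zero, eval_prod]
        refine Finset.prod_eq_one fun i _ => ?_
        rw [eval_pow, ← coeff_zero_eq_eval_zero, Qp_coeff (hf i) (fun w => (hd i w).1), one_pow]
      rw [h0, coeff_zero] at h4
      exact zero_ne_one h4
    exact mul_right_cancel₀ h3 ((hrel' j).trans (hrel' j₀).symm)
  choose P₀ hP0 hP1 hP2 using hv
  -- the bound of the degrees
  have hdeg : ∃ d₀ : ℕ, ∀ v, (P₀ v).natDegree ≤ d₀ := by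
    have h2 : Fact (Nat.Prime 2) := ⟨Nat.prime_two⟩
    have h3 : Fact (Nat.Prime 3) := ⟨Nat.prime_three⟩
    refine ⟨max (Module.finrank ℂ (V.V 2 ⊗[ℂ] U)) (Module.finrank ℂ (V.V 3 ⊗[ℂ] U)), fun v => ?_⟩
    obtain ⟨ℓ, hℓ, hℓ2, hℓw⟩ := BK.exists_ell v.isMaximal.ne_top
    obtain ⟨j⟩ : Nonempty (Idx v) := inferInstance
    have h5 := BK.euler_deg (X ℓ) j.h
    have h6 := hP1 v ⟨ℓ, hℓ, hℓw, j.W, j.hW, j.hWv, j.φ, j.h⟩
    simp only at h6
    rw [h6] at h5
    refine h5.trans ?_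
    rcases hℓ2 with rfl | rfl
    · exact le_max_left _ _
    · exact le_max_right _ _
  obtain ⟨d₀, hd₀⟩ := hdeg
  -- a common abscissa
  obtain ⟨c₀, hc₀1, hc₀⟩ : ∃ c₀ : ℝ, 0 < c₀ ∧ ∀ i, c i ≤ c₀ := by
    refine ⟨1 + ∑ i, |c i|, by positivity, fun i => ?_⟩
    have h1 : |c i| ≤ ∑ i, |c i| := Finset.single_le_sum (f := fun i => |c i|)
      (fun j _ => abs_nonneg _) (Finset.mem_univ i)
    have h2 := le_abs_self (c i)
    linarith
  have hbi : ∀ i, ∀ w (z : ℂ), (P i w).eval z = 0 →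
      (Nat.card (𝓞 (F i) ⧸ w.asIdeal) : ℝ) ^ (-c₀) ≤ ‖z‖ := fun i w z hz =>
    root_bound (P i) (fun w => (hd i w).1) c₀
      (fun s hs w => (hconv i s (lt_of_le_of_lt (hc₀ i) hs)).1 w) w z hz
  have hb0 : ∀ v (z : ℂ), (P₀ v).eval z = 0 → (Nat.card (𝓞 K ⧸ v.asIdeal) : ℝ) ^ (-c₀) ≤ ‖z‖ := by
    intro v z hz
    have h1 := congrArg (eval z) (hP2 v)
    rw [eval_mul, eval_pow, hz, zero_pow hM, zero_mul, eval_prod] at h1
    obtain ⟨i, -, hi⟩ := Finset.prod_eq_zero_iff.mp h1.symm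
    rw [eval_pow] at hi
    obtain ⟨w, hw, hwz⟩ := Qp_root (eq_zero_of_pow_eq_zero hi)
    have h2 := hbi i w _ hwz
    have hfw := hf i w.asIdeal w.isMaximal
    have hw' : w.asIdeal.comap (algebraMap (𝓞 K) (𝓞 (F i))) = v.asIdeal := hw
    rw [hfw.2, hw', norm_pow, Nat.cast_pow, ← Real.rpow_natCast, ← Real.rpow_mul (Nat.cast_nonneg _),
      mul_comm, Real.rpow_mul (Nat.cast_nonneg _), Real.rpow_natCast] at h2
    exact le_of_pow_le_pow_left₀ hfw.1 (norm_nonneg _) h2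
  obtain ⟨hm0, hn0, hdiff⟩ := prod_conv P₀ (fun v => ⟨hP0 v, hd₀ v⟩) hb0
  have hi := fun i => prod_conv (P i) (hd i) (hbi i)
  have hLne : ∀ i, ∀ s : ℂ, c₀ + 1 < s.re → Lf i s ≠ 0 := by
    intro i s hs
    have h1 := (hconv i s (by linarith [hc₀ i])).2
    rw [← h1.tprod_eq]
    exact (hi i).2.1 s hs
  have hfac0 : ∀ (s : ℂ), c₀ < s.re → ∀ v, factor P₀ s v ≠ 0 := by
    intro s hs v h0
    rw [factor, inv_eq_zero] at h0
    have h1 := hb0 v _ h0
    have hq := BK.one_lt_card v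
    have hq0 : 0 < Nat.card (𝓞 K ⧸ v.asIdeal) := by omega
    rw [Complex.norm_natCast_cpow_of_pos hq0, Complex.neg_re] at h1
    have h2 := Real.rpow_lt_rpow_of_exponent_lt (x := (Nat.card (𝓞 K ⧸ v.asIdeal) : ℝ))
      (by exact_mod_cast hq) (neg_lt_neg hs)
    linarith
  -- the identity between the L-functions
  have hpow : ∀ s : ℂ, c₀ + 1 < s.re →
      (∏' v, factor P₀ s v) ^ M * ∏ i, Lf i s ^ n i = ∏ i, Lf i s ^ n' i := by
    intro s hs
    have h1 : ∀ i, HasProd (fun v => factor (Qp (F i) (P i) (f i)) s v) (Lf i s) := by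
      intro i
      have h2 := BK.euler_fibre (F i) _ _ (hconv i s (by linarith [hc₀ i])).2
      have h3 : (fun v => factor (Qp (F i) (P i) (f i)) s v)
          = fun v => ∏ᶠ w ∈ above (F i) v, factor (P i) s w :=
        funext fun v => Qp_factor (hf i) v s
      rw [h3]
      exact h2
    have h2 := (hm0 s hs).hasProd
    have h3 : HasProd (fun v => factor P₀ s v ^ M * ∏ i, factor (Qp (F i) (P i) (f i)) s v ^ n i)
        ((∏' v, factor P₀ s v) ^ M * ∏ i, Lf i s ^ n i) :=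
      (h2.pow M).mul (hasProd_prod fun i _ => (h1 i).pow (n i))
    have h4 : HasProd (fun v => ∏ i, factor (Qp (F i) (P i) (f i)) s v ^ n' i)
        (∏ i, Lf i s ^ n' i) := hasProd_prod fun i _ => (h1 i).pow (n' i)
    have h5 : (fun v => factor P₀ s v ^ M * ∏ i, factor (Qp (F i) (P i) (f i)) s v ^ n i)
        = fun v => ∏ i, factor (Qp (F i) (P i) (f i)) s v ^ n' i := by
      funext v
      have h6 := congrArg (eval ((Nat.card (𝓞 K ⧸ v.asIdeal) : ℂ) ^ (-s))) (hP2 v)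
      rw [eval_mul, eval_pow, eval_prod, eval_prod] at h6
      simp only [eval_pow] at h6
      have h7 := congrArg (fun z => z⁻¹) h6
      simp only [mul_inv, ← inv_pow, ← Finset.prod_inv_distrib] at h7
      exact h7
    rw [h5] at h3
    exact h3.unique h4
  -- the dimensions
  have hdim : ∃ k : ℕ, Module.rank ℂ (BK.inv (⊥ : IntermediateField K (Kb K)).fixingSubgroup
        (Representation.tprod τ γ)) = k ∧
      (M : ℤ) * k + ∑ i, (n i : ℤ) * (e i : ℤ) = ∑ i, (n' i : ℤ) * (e i : ℤ) := by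
    have h1 := rel_inv_rank (n := n) (n' := n') (M := M) hF1 hrel (Representation.tprod τ γ)
    simp only [hrk, nsmul_eq_mul, ← Nat.cast_mul, ← Nat.cast_sum] at h1
    have h3 : Module.rank ℂ (BK.inv (⊥ : IntermediateField K (Kb K)).fixingSubgroup
        (Representation.tprod τ γ)) < Cardinal.aleph0 := by
      refine lt_of_le_of_lt ?_ (Cardinal.natCast_lt_aleph0 (n := ∑ i, n' i * e i))
      rw [← h1]
      refine le_trans ?_ (self_le_add_right _ _)
      exact le_mul_of_one_le_left bot_le (by exact_mod_cast Nat.one_le_iff_ne_zero.mpr hM)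
    obtain ⟨k, hk⟩ := Cardinal.lt_aleph0.mp h3
    refine ⟨k, hk, ?_⟩
    rw [hk] at h1
    have h4 : M * k + ∑ i, n i * e i = ∑ i, n' i * e i := by exact_mod_cast h1
    exact_mod_cast h4
  obtain ⟨k, hk1, hk2⟩ := hdim
  obtain ⟨Ω, g, hU1, hU2, hU3, hU4, hg1, hg2, hg3⟩ := BK.ana n n' hM a ha (c₀ + 1) (by linarith) Lf
    hmer (fun s => ∏' v, factor P₀ s v) hdiff hn0 hLne hpow (fun i => (e i : ℤ)) k hord hk2
  refine ⟨Ω, hU1, hU2, hU3, fun w => P₀ (botPl w), ?_, c₀ + 1, g, hU4, hg1, ?_, k, ?_, hg3⟩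
  · intro w ℓ _ hℓ W hW hWw φ h
    have hWv := BK.botPl_over w hWw
    have h1 : IsFrob ⊤ W (Nat.card (𝓞 K ⧸ (botPl w).asIdeal)) φ := by
      rw [IntermediateField.fixingSubgroup_bot, BK.botPl_card] at h
      exact h
    have h2 := hP1 (botPl w) ⟨ℓ, inferInstance, (fun h3 => hℓ (by
      have h4 : BK.botInt K (ℓ : 𝓞 K) ∈ w.asIdeal := BK.mem_botPl.mp h3
      rwa [map_natCast] at h4)), W, hW, hWv, φ, h1⟩
    simp only at h2
    rw [hX]
    refine Eq.trans ?_ h2
    exact BK.eulerPoly_eq (X ℓ) h h1 IntermediateField.fixingSubgroup_bot (BK.botPl_card w)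
  · intro s hs
    have hfb : ∀ w, factor (fun w => P₀ (botPl w)) s w = factor P₀ s (botPl w) := by
      intro w
      rw [factor, factor, BK.botPl_card]
    refine ⟨fun w => ?_, ?_⟩
    · rw [hfb]
      exact hfac0 s (by linarith) _
    · have h1 : factor (fun w => P₀ (botPl w)) s = factor P₀ s ∘ botPl := funext hfb
      rw [h1, Equiv.hasProd_iff, hg2 s hs]
      exact (hm0 s hs).hasProd
  · rw [rank_invs]
    exact hk1

end Pool.Agent.K4H36.TP
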