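import Mathlib
import Pool.Agent.K4H36.TP.Red

/-!
# From characters to representations with finite cyclic image
-/

set_option autoImplicit false
set_option linter.unusedSectionVars false

namespace Pool.Agent.K4H36.TP

open NumberField Polynomial IsDedekindDomain MulAction
open Pool.Agent.K4H36.BK (GK Kb NearlyGood)
open scoped Pointwise TensorProduct

variable {K : Type} [Field K] [NumberField K]

/-- the characters of a nearly good field which are trivial on the Galois group of `L` -/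
theorem oneBad {L F : IntermediateField K (Kb K)} {m : ℕ} (hF : NearlyGood L F m)
    {ψ : F.fixingSubgroup →* ℂˣ}
    (hψ : ∀ g : F.fixingSubgroup, (∀ x ∈ L, (g : GK K) x = x) → ψ g = 1) : OneBad F m ψ := by
  obtain ⟨-, v, hv⟩ := hF
  refine ⟨v, fun W hW => ⟨fun hWv => ⟨fun g hg => ?_, fun hm g hg => ?_⟩, fun hWv g => ?_⟩⟩
  · exact hψ g (((hv W hW).1 hWv).1 g.1 g.2 hg)
  · exact hψ g (((hv W hW).1 hWv).2 hm g.1 g.2 hg)
  · obtain ⟨h, hh, hhW, hhx⟩ := (hv W hW).2 hWv g.1 g.2
    refine ⟨⟨h, hh⟩, hhW, ?_⟩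
    have h1 : ψ (⟨h, hh⟩⁻¹ * g) = 1 := by
      refine hψ _ fun x hx => ?_
      change h⁻¹ ((g : GK K) x) = x
      rw [← hhx x hx, ← AlgEquiv.mul_apply, inv_mul_cancel]
      rfl
    rw [map_mul, map_inv, inv_mul_eq_one] at h1
    exact h1

/-- the order formula for the characters implies the order formula for the restrictions to `F` of
the representations which are trivial on the Galois group of `L` -/
theorem formula_res {L F : IntermediateField K (Kb K)} [FiniteDimensional K L] {m : ℕ}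
    (hF : NearlyGood L F m) {V : Fam K} {C : Type} [AddCommGroup C] [Module ℂ C]
    {γ : Representation ℂ (GK K) C} {U : Type} [AddCommGroup U] [Module ℂ U]
    [FiniteDimensional ℂ U] (τ : Representation ℂ (GK K) U)
    (hτ : ∀ g : GK K, (∀ x ∈ L, g x = x) → τ g = 1)
    (h : ∀ ψ : F.fixingSubgroup →* ℂˣ,
      (∀ g : F.fixingSubgroup, (∀ x ∈ L, (g : GK K) x = x) → ψ g = 1) → OneBad F m ψ →
      ∃ a < (0 : ℝ), Formula V γ F (chr ψ) {s | a < s.re}) :
    ∃ a < (0 : ℝ), Formula V γ F (τ.comp F.fixingSubgroup.subtype) {s | a < s.re} := by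
  have hF' := hF
  obtain ⟨⟨c, hc, hgen⟩, -⟩ := hF
  have hfin : Finite (GK K ⧸ L.fixingSubgroup) := BK.finite_cosets L
  have hind : L.fixingSubgroup.index ≠ 0 := Subgroup.index_ne_zero_of_finite
  obtain ⟨N, hN, -, hcN⟩ := Subgroup.exists_pow_mem_of_index_ne_zero hind c
  let ω : Representation ℂ F.fixingSubgroup U := τ.comp F.fixingSubgroup.subtype
  have hω : ∀ g : F.fixingSubgroup, ω g = τ (g : GK K) := fun g => rfl
  have h1 : ω ⟨c, hc⟩ ^ N = 1 := by
    rw [hω, ← map_pow]
    exact hτ _ (fun x hx => (IntermediateField.mem_fixingSubgroup_iff L _).mp hcN x hx)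
  have h2 : ∀ g : F.fixingSubgroup, ∃ k : ℤ, ω g = ω (⟨c, hc⟩ ^ k) := by
    intro g
    obtain ⟨k, hk⟩ := hgen g.1 g.2
    refine ⟨k, ?_⟩
    have h3 : τ ((c ^ k)⁻¹ * g.1) = 1 := by
      refine hτ _ fun x hx => ?_
      rw [AlgEquiv.mul_apply, hk x hx, ← AlgEquiv.mul_apply, inv_mul_cancel]
      rfl
    have h4 : (g : GK K) = c ^ k * ((c ^ k)⁻¹ * g.1) := by group
    rw [hω, hω, h4, map_mul, h3, mul_one]
    rfl
  obtain ⟨d, e, ψ, hψ⟩ := exists_eig ω ⟨c, hc⟩ N hN h1 h2
  have h5 : ∀ j (g : F.fixingSubgroup), (∀ x ∈ L, (g : GK K) x = x) → ψ j g = 1 := by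
    intro j g hg
    have h3 := hψ g (e.symm (Pi.single j 1)) j
    have h4 : ω g = 1 := hτ _ hg
    rw [h4, Module.End.one_apply, LinearEquiv.apply_symm_apply, Pi.single_eq_same, mul_one] at h3
    exact Units.ext h3.symm
  exact formula_of_eig e ψ hψ fun j => h (ψ j) (h5 j) (oneBad hF' (h5 j))

end Pool.Agent.K4H36.TP
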